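import Mathlib

set_option autoImplicit false

namespace Pool.Agent.P.MP_01accb_co

/-- Step relation of the Cayley digraph. -/
def CStep {A : Type} [CommGroup A] (T : Set A) (a b : A) : Prop := ∃ t ∈ T, b = t * a

/-- A directed path in the Cayley digraph whose vertex set is `H`. -/
def HasPath {A : Type} [CommGroup A] (T : Set A) (H : Set A) : Prop :=
  ∃ P : List A, P ≠ [] ∧ P.IsChain (CStep T) ∧ P.Nodup ∧ ∀ a, a ∈ P ↔ a ∈ H

variable {A : Type} [CommGroup A] {T : Set A}

lemma chain_translate (c : A) {P : List A} (h : P.IsChain (CStep T)) :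
    (P.map (c * ·)).IsChain (CStep T) := by
  refine List.isChain_map_of_isChain _ ?_ h
  rintro a b ⟨t, ht, rfl⟩
  exact ⟨t, ht, by simp [mul_left_comm]⟩

lemma path_layers (H : Subgroup A) (t : A) (ht : t ∈ T) (hH : HasPath T H) (μ : ℕ)
    (hμ : ∀ k, 0 < k → k < μ → t ^ k ∉ H) (i : ℕ) (hi : i < μ) :
    ∃ (P : List A) (hP : P ≠ []), P.IsChain (CStep T) ∧ P.Nodup ∧
      (∀ a, a ∈ P ↔ ∃ j ≤ i, (t ^ j)⁻¹ * a ∈ H) ∧ (t ^ i)⁻¹ * P.getLast hP ∈ H := by
  obtain ⟨Q, hQ, hQc, hQn, hQm⟩ := hH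
  induction i with
  | zero =>
    refine ⟨Q, hQ, hQc, hQn, ?_, ?_⟩
    · intro a
      simp [hQm]
    · simpa using (hQm _).1 (List.getLast_mem hQ)
  | succ i ih =>
    obtain ⟨P, hP, hPc, hPn, hPm, hPl⟩ := ih (by omega)
    set c := t * P.getLast hP * (Q.head hQ)⁻¹ with hc
    have hQh : Q.head hQ ∈ H := (hQm _).1 (List.head_mem hQ)
    have hcH : (t ^ (i + 1))⁻¹ * c ∈ H := by
      have : (t ^ (i + 1))⁻¹ * c = ((t ^ i)⁻¹ * P.getLast hP) * (Q.head hQ)⁻¹ := by
        rw [hc, pow_succ]; simp only [mul_inv_rev]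
        simp [mul_comm, mul_left_comm, mul_assoc]
      rw [this]
      exact H.mul_mem hPl (H.inv_mem hQh)
    have hmem : ∀ a, a ∈ Q.map (c * ·) ↔ (t ^ (i + 1))⁻¹ * a ∈ H := by
      intro a
      simp only [List.mem_map, hQm, SetLike.mem_coe]
      constructor
      · rintro ⟨b, hb, rfl⟩
        rw [← mul_assoc]; exact H.mul_mem hcH hb
      · intro ha
        refine ⟨c⁻¹ * a, ?_, by simp⟩
        have : c⁻¹ * a = ((t ^ (i + 1))⁻¹ * c)⁻¹ * ((t ^ (i + 1))⁻¹ * a) := by group
        rw [this]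
        exact H.mul_mem (H.inv_mem hcH) ha
    have hne : Q.map (c * ·) ≠ [] := by simpa using hQ
    refine ⟨P ++ Q.map (c * ·), by simp [hP], ?_, ?_, ?_, ?_⟩
    · refine hPc.append (chain_translate c hQc) ?_
      intro x hx y hy
      rw [List.getLast?_eq_some_getLast hP] at hx
      rw [List.head?_eq_some_head hne] at hy
      simp only [Option.mem_def, Option.some.injEq] at hx hy
      subst hx hy
      refine ⟨t, ht, ?_⟩
      rw [List.head_map]
      show c * Q.head hQ = _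
      rw [hc]; simp
    · refine List.Nodup.append hPn (hQn.map (mul_right_injective c)) ?_
      intro a ha hb
      obtain ⟨j, hj, hja⟩ := (hPm a).1 ha
      have hb' := (hmem a).1 hb
      refine hμ (i + 1 - j) (by omega) (by omega) ?_
      have : t ^ (i + 1 - j) = ((t ^ j)⁻¹ * a) * ((t ^ (i + 1))⁻¹ * a)⁻¹ := by
        have e : t ^ (i + 1) = t ^ j * t ^ (i + 1 - j) := by
          rw [← pow_add]; congr 1; omega
        rw [e]; group
      rw [this]
      exact H.mul_mem hja (H.inv_mem hb')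
    · intro a
      rw [List.mem_append, hPm, hmem]
      constructor
      · rintro (⟨j, hj, h⟩ | h)
        · exact ⟨j, by omega, h⟩
        · exact ⟨i + 1, le_rfl, h⟩
      · rintro ⟨j, hj, h⟩
        rcases Nat.lt_or_ge j (i + 1) with h' | h'
        · exact Or.inl ⟨j, by omega, h⟩
        · right
          have : j = i + 1 := by omega
          rwa [← this]
    · rw [List.getLast_append_of_ne_nil _ hne]
      exact (hmem _).1 (List.getLast_mem hne)

lemma path_extend [Finite A] (H : Subgroup A) (t : A) (ht : t ∈ T) (hH : HasPath T H) :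
    HasPath T (H ⊔ Subgroup.zpowers t : Subgroup A) := by
  classical
  have hex : ∃ k, 0 < k ∧ t ^ k ∈ H :=
    ⟨orderOf t, orderOf_pos t, by rw [pow_orderOf_eq_one]; exact H.one_mem⟩
  set μ := Nat.find hex with hμ
  have hμs := Nat.find_spec hex
  rw [← hμ] at hμs
  obtain ⟨P, hP, hPc, hPn, hPm, -⟩ := path_layers H t ht hH μ
    (fun k hk hk' hm => Nat.find_min hex hk' ⟨hk, hm⟩) (μ - 1) (by omega)
  refine ⟨P, hP, hPc, hPn, fun a => ?_⟩
  rw [hPm, SetLike.mem_coe, Subgroup.mem_sup]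
  constructor
  · rintro ⟨j, -, h⟩
    exact ⟨_, h, t ^ j, Subgroup.npow_mem_zpowers t j, by simp [mul_comm]⟩
  · rintro ⟨h, hh, z, hz, rfl⟩
    obtain ⟨k, rfl⟩ := (mem_powers_iff_mem_zpowers.2 hz)
    refine ⟨k % μ, by have := Nat.mod_lt k hμs.1; omega, ?_⟩
    have : (t ^ (k % μ))⁻¹ * (h * t ^ k) = h * (t ^ μ) ^ (k / μ) := by
      conv_lhs => rw [← Nat.mod_add_div k μ, pow_add, pow_mul]
      simp [mul_left_comm]
    simp only
    rw [this]
    exact H.mul_mem hh (H.pow_mem hμs.2 _)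

/-- A finite abelian group generated by `T` has a directed Hamiltonian path from `1`. -/
lemma abelian_path [Finite A] (hT : Subgroup.closure T = ⊤) :
    ∃ P : List A, P.head? = some 1 ∧ P.IsChain (CStep T) ∧ P.Nodup ∧ ∀ a, a ∈ P := by
  classical
  have hbot : HasPath T (⊥ : Subgroup A) :=
    ⟨[1], by simp, by simp, by simp, by simp⟩
  obtain ⟨H, hH, hmax⟩ := Set.Finite.exists_maximal
    (Set.toFinite {H : Subgroup A | HasPath T H}) ⟨⊥, hbot⟩
  have htop : H = ⊤ := by
    rw [eq_top_iff, ← hT, Subgroup.closure_le]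
    intro t ht
    have := hmax (path_extend H t ht hH) le_sup_left
    exact this (Subgroup.mem_sup_right (Subgroup.mem_zpowers t))
  subst htop
  obtain ⟨P, hP, hPc, hPn, hPm⟩ := hH
  refine ⟨P.map ((P.head hP)⁻¹ * ·), ?_, chain_translate _ hPc,
    hPn.map (mul_right_injective _), fun a => ?_⟩
  · rw [List.head?_map, List.head?_eq_some_head hP]; simp
  · exact List.mem_map.2 ⟨P.head hP * a, (hPm _).2 (by simp), by simp⟩

end Pool.Agent.P.MP_01accb_co
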