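import Pool.Agent.P.MP_01accb_co.Basic

set_option autoImplicit false

namespace Pool.Agent.P.MP_01accb_co

variable {V : Type} [Fintype V] [DecidableEq V] {X : SimpleGraph V}
  {Γ : Type} [Group Γ] [Fintype Γ] [MulAction Γ V]

lemma ham_of_seq [Nonempty V] (f : ℕ → V)
    (hadj : ∀ i, i + 1 < Fintype.card V → X.Adj (f i) (f (i + 1)))
    (hinj : ∀ i j, i < j → j < Fintype.card V → f i ≠ f j) :
    ∃ (u v : V) (p : X.Walk u v), p.IsHamiltonian := by
  set n := Fintype.card V with hn
  have hn0 : 0 < n := Fintype.card_pos
  let l : List V := (List.range n).map f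
  have hne : l ≠ [] := by
    intro h
    have := congrArg List.length h
    simp [l] at this
    omega
  have hch : l.IsChain X.Adj := by
    rw [List.isChain_iff_getElem]
    intro i hi
    simp only [l, List.length_map, List.length_range] at hi
    simp only [l, List.getElem_map, List.getElem_range]
    exact hadj i hi
  have hnd : l.Nodup := by
    refine List.Nodup.map_on ?_ List.nodup_range
    intro i hi j hj e
    simp only [List.mem_range] at hi hj
    rcases lt_trichotomy i j with h | h | h
    · exact absurd e (hinj i j h hj)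
    · exact h
    · exact absurd e.symm (hinj j i h hi)
  refine ⟨_, _, SimpleGraph.Walk.ofSupport l hne hch, ?_⟩
  rw [SimpleGraph.Walk.isHamiltonian_iff_isPath_and_length_eq]
  refine ⟨?_, ?_⟩
  · rw [SimpleGraph.Walk.isPath_def, SimpleGraph.Walk.support_ofSupport]
    exact hnd
  · rw [SimpleGraph.Walk.length_ofSupport]
    simp [l, hn]

lemma value_of_ham [MulAction.IsPretransitive Γ V] {u v : V} (p : X.Walk u v)
    (hp : p.IsHamiltonian) : ValueIsHalf X Γ := by
  haveI : Nonempty V := ⟨u⟩
  refine ⟨fun r s _ _ h => lower_bound r s h, fun _ => u, p.getVert, fun _ => Or.inl rfl, ?_, ?_⟩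
  · intro i
    by_cases hi : i < p.length
    · exact Or.inr (p.adj_getVert_succ hi)
    · left
      rw [p.getVert_of_length_le (by omega), p.getVert_of_length_le (by omega)]
  · refine optimal_of_bij _ _ u p.getVert (fun _ _ _ => Iff.rfl) ?_
    intro i hi j hj e
    have hl := hp.length_eq
    exact hp.isPath.getVert_injOn (by simp only [Set.mem_setOf_eq]; omega)
      (by simp only [Set.mem_setOf_eq]; omega) e

lemma ham_of_one_still [Nonempty V] [MulAction.IsPretransitive Γ V] (r s : ℕ → V)
    (hr : Lazy X r)
    (hD : ∀ i j, i < j → j < Fintype.card V → ∀ g : Γ, g • r i = s i → g • r j ≠ s j)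
    (hs : ∀ i, i + 1 < Fintype.card V → s (i + 1) = s i) :
    ∃ (u v : V) (p : X.Walk u v), p.IsHamiltonian := by
  have hs0 : ∀ i, i < Fintype.card V → s i = s 0 := by
    intro i
    induction i with
    | zero => intro _; rfl
    | succ i ih => intro h; rw [hs i h, ih (by omega)]
  have hinj : ∀ i j, i < j → j < Fintype.card V → r i ≠ r j := by
    intro i j hij hj e
    obtain ⟨g, hg⟩ := MulAction.exists_smul_eq Γ (r i) (s i)
    refine hD i j hij hj g hg ?_
    rw [← e, hg, hs0 i (by omega), hs0 j hj]
  refine ham_of_seq r ?_ hinj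
  intro i hi
  rcases hr i with h | h
  · exact absurd h.symm (hinj i (i + 1) (by omega) hi)
  · exact h

lemma ham_of_value [Nonempty V] [MulAction.IsPretransitive Γ V]
    (harc : ∀ u v u' v' : V, X.Adj u v → X.Adj u' v' → ∃ g : Γ, g • u = u' ∧ g • v = v')
    (h : ValueIsHalf X Γ) : ∃ (u v : V) (p : X.Walk u v), p.IsHamiltonian := by
  obtain ⟨r, s, hr, hs, hmeet, hopt⟩ := h.2
  have hD : ∀ i j, i < j → j < Fintype.card V → ∀ g : Γ, g • r i = s i → g • r j ≠ s j :=
    fun i j hij hj g hi => disjoint_of_optimal r s hmeet hopt i j hij hj g hi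
  have hadj : ∀ i j, i < j → j < Fintype.card V → X.Adj (r i) (r j) → ¬ X.Adj (s i) (s j) := by
    intro i j hij hj h1 h2
    obtain ⟨g, a, b⟩ := harc _ _ _ _ h1 h2
    exact hD i j hij hj g a b
  -- at each step exactly one of the two players moves
  have hone : ∀ i, i + 1 < Fintype.card V →
      (r (i + 1) = r i ∧ X.Adj (s i) (s (i + 1))) ∨ (s (i + 1) = s i ∧ X.Adj (r i) (r (i + 1))) := by
    intro i hi
    rcases hr i with a | a <;> rcases hs i with b | b
    · obtain ⟨g, hg⟩ := MulAction.exists_smul_eq Γ (r i) (s i)
      exact absurd (by rw [a, b, hg]) (hD i (i + 1) (by omega) hi g hg)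
    · exact Or.inl ⟨a, b⟩
    · exact Or.inr ⟨b, a⟩
    · exact absurd b (hadj i (i + 1) (by omega) hi a)
  by_cases hn : 1 < Fintype.card V
  · rcases hone 0 hn with h0 | h0
    · -- r stands still
      have hall : ∀ i, i + 1 < Fintype.card V →
          r (i + 1) = r i ∧ X.Adj (s i) (s (i + 1)) := by
        intro i
        induction i with
        | zero => intro _; exact h0
        | succ i ih =>
          intro hi
          have a := ih (by omega)
          rcases hone (i + 1) hi with b | b
          · exact b
          · exfalso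
            refine hadj i (i + 1 + 1) (by omega) hi ?_ ?_
            · rw [← a.1]; exact b.2
            · rw [b.1]; exact a.2
      refine ham_of_one_still (Γ := Γ) s r hs ?_ (fun i hi => (hall i hi).1)
      intro i j hij hj g h1 h2
      refine hD i j hij hj g⁻¹ ?_ ?_
      · rw [← h1, inv_smul_smul]
      · rw [← h2, inv_smul_smul]
    · have hall : ∀ i, i + 1 < Fintype.card V →
          s (i + 1) = s i ∧ X.Adj (r i) (r (i + 1)) := by
        intro i
        induction i with
        | zero => intro _; exact h0
        | succ i ih =>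
          intro hi
          have a := ih (by omega)
          rcases hone (i + 1) hi with b | b
          · exfalso
            refine hadj i (i + 1 + 1) (by omega) hi ?_ ?_
            · rw [b.1]; exact a.2
            · rw [← a.1]; exact b.2
          · exact b
      exact ham_of_one_still (Γ := Γ) r s hr hD (fun i hi => (hall i hi).1)
  · exact ham_of_one_still (Γ := Γ) r s hr hD (fun i hi => by omega)

end Pool.Agent.P.MP_01accb_co
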