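import Mathlib

set_option autoImplicit false

namespace Pool.Agent.P.MP_01accb_co

open Finset

/-- A lazy walk: each step stays or moves to a neighbour. -/
def Lazy {V : Type} (X : SimpleGraph V) (r : ℕ → V) : Prop :=
  ∀ i, r (i + 1) = r i ∨ X.Adj (r i) (r (i + 1))

/-- The mean over `g` of the first time at which `g • r i = s i`. -/
noncomputable def meanMeet {V : Type} (Γ : Type) [Group Γ] [Fintype Γ] [MulAction Γ V]
    (r s : ℕ → V) : ℝ :=
  (∑ g : Γ, ((sInf {i : ℕ | g • r i = s i} : ℕ) : ℝ)) / (Fintype.card Γ : ℝ)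

/-- The asymmetric rendezvous value equals `(n-1)/2`: no pair of lazy walks that meets for
every `g` has a smaller mean meeting time, and some such pair attains `(n-1)/2`. -/
def ValueIsHalf {V : Type} [Fintype V] (X : SimpleGraph V) (Γ : Type) [Group Γ] [Fintype Γ]
    [MulAction Γ V] : Prop :=
  (∀ r s : ℕ → V, Lazy X r → Lazy X s → (∀ g : Γ, ∃ i, g • r i = s i) →
      ((Fintype.card V : ℝ) - 1) / 2 ≤ meanMeet Γ r s) ∧
  (∃ r s : ℕ → V, Lazy X r ∧ Lazy X s ∧ (∀ g : Γ, ∃ i, g • r i = s i) ∧
      meanMeet Γ r s = ((Fintype.card V : ℝ) - 1) / 2)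

section count

variable {V : Type} [Fintype V] {Γ : Type} [Group Γ] [Fintype Γ] [MulAction Γ V]

open Classical in
lemma card_fiber_mul [MulAction.IsPretransitive Γ V] (x y : V) :
    (univ.filter (fun g : Γ => g • x = y)).card * Fintype.card V = Fintype.card Γ := by
  have key : ∀ z : V, (univ.filter (fun g : Γ => g • x = z)).card
      = (univ.filter (fun g : Γ => g • x = y)).card := by
    intro z
    obtain ⟨h, hh⟩ := MulAction.exists_smul_eq Γ z y
    refine card_bij (fun g _ => h * g) ?_ ?_ ?_
    · intro g hg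
      simp only [mem_filter, mem_univ, true_and] at hg ⊢
      rw [mul_smul, hg, hh]
    · intro g _ g' _ e
      exact mul_left_cancel e
    · intro g hg
      simp only [mem_filter, mem_univ, true_and] at hg
      refine ⟨h⁻¹ * g, ?_, by simp⟩
      simp only [mem_filter, mem_univ, true_and]
      rw [mul_smul, hg, ← hh, inv_smul_smul]
  have := card_eq_sum_card_fiberwise (f := fun g : Γ => g • x) (s := (univ : Finset Γ))
    (t := (univ : Finset V)) (by intro g _; simp)
  rw [card_univ] at this
  rw [this, sum_congr rfl (fun z _ => key z)]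
  simp [mul_comm]

/-- first meeting time -/
noncomputable def fm (r s : ℕ → V) (g : Γ) : ℕ := sInf {i : ℕ | g • r i = s i}

open Classical in
lemma card_le_lt [MulAction.IsPretransitive Γ V] (r s : ℕ → V)
    (h : ∀ g : Γ, ∃ i, g • r i = s i) (k : ℕ) :
    (univ.filter (fun g : Γ => fm r s g < k)).card * Fintype.card V ≤ k * Fintype.card Γ := by
  have hsub : univ.filter (fun g : Γ => fm r s g < k) ⊆
      (range k).biUnion (fun i => univ.filter (fun g : Γ => g • r i = s i)) := by
    intro g hg
    simp only [mem_filter, mem_univ, true_and, mem_biUnion, mem_range] at hg ⊢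
    exact ⟨fm r s g, hg, Nat.sInf_mem (s := {i : ℕ | g • r i = s i}) (h g)⟩
  calc _ ≤ (∑ i ∈ range k, (univ.filter (fun g : Γ => g • r i = s i)).card) * Fintype.card V :=
        Nat.mul_le_mul_right _ ((card_le_card hsub).trans card_biUnion_le)
    _ = ∑ i ∈ range k, Fintype.card Γ := by
        rw [sum_mul]; exact sum_congr rfl (fun i _ => card_fiber_mul _ _)
    _ = _ := by simp

open Classical in
lemma sum_ge (T : Γ → ℕ) (n : ℕ) :
    ∑ k ∈ range n, (univ.filter (fun g : Γ => ¬ T g < k + 1)).card ≤ ∑ g : Γ, T g := by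
  simp_rw [card_filter]
  rw [sum_comm]
  refine sum_le_sum (fun g _ => ?_)
  rw [← card_filter]
  calc _ ≤ (range (T g)).card := card_le_card (by
        intro k hk
        simp only [mem_filter, mem_range] at hk ⊢
        omega)
    _ = _ := card_range _

open Classical in
/-- Lower bound with the tail term. -/
lemma main_ineq [MulAction.IsPretransitive Γ V] [Nonempty V] (r s : ℕ → V)
    (h : ∀ g : Γ, ∃ i, g • r i = s i) :
    (Fintype.card Γ : ℝ) * (((Fintype.card V : ℝ) - 1) / 2)
      + (univ.filter (fun g : Γ => ¬ fm r s g < Fintype.card V)).card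
      ≤ ∑ g : Γ, (fm r s g : ℝ) := by
  set n := Fintype.card V with hn
  have hn0 : 0 < n := Fintype.card_pos
  obtain ⟨m, hm⟩ : ∃ m, n = m + 1 := ⟨n - 1, by omega⟩
  have h1 := sum_ge (Γ := Γ) (fm r s) n
  have h1' : ((∑ k ∈ range n, (univ.filter (fun g : Γ => ¬ fm r s g < k + 1)).card : ℕ) : ℝ)
      ≤ ∑ g : Γ, (fm r s g : ℝ) := by exact_mod_cast h1
  refine le_trans ?_ h1'
  rw [hm, sum_range_succ, Nat.cast_add (∑ x ∈ range m, _), Nat.cast_sum]
  refine add_le_add ?_ le_rfl
  have h2 : ∀ k ∈ range m, (Fintype.card Γ : ℝ) * (1 - (k + 1) / (m + 1)) ≤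
      ((univ.filter (fun g : Γ => ¬ fm r s g < k + 1)).card : ℝ) := by
    intro k _
    have a := card_le_lt r s h (k + 1)
    have b := card_filter_add_card_filter_not (s := (univ : Finset Γ))
      (fun g : Γ => fm r s g < k + 1)
    rw [card_univ] at b
    rw [← hn, hm] at a
    have a' : ((univ.filter (fun g : Γ => fm r s g < k + 1)).card : ℝ) * (m + 1)
        ≤ (k + 1) * Fintype.card Γ := by exact_mod_cast a
    have b' : ((univ.filter (fun g : Γ => fm r s g < k + 1)).card : ℝ)
        + ((univ.filter (fun g : Γ => ¬ fm r s g < k + 1)).card : ℝ) = Fintype.card Γ := by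
      exact_mod_cast b
    have hm1 : (0 : ℝ) < m + 1 := by positivity
    have : ((univ.filter (fun g : Γ => fm r s g < k + 1)).card : ℝ)
        ≤ (k + 1) / (m + 1) * Fintype.card Γ := by
      rw [div_mul_eq_mul_div, le_div_iff₀ hm1]; exact a'
    nlinarith
  refine le_trans (le_of_eq ?_) (sum_le_sum h2)
  rw [← mul_sum]
  congr 1
  have hs : ∀ m : ℕ, ∑ k ∈ range m, ((k : ℝ) + 1) = m * (m + 1) / 2 := by
    intro m
    induction m with
    | zero => simp
    | succ m ih => rw [sum_range_succ, ih]; push_cast; ring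
  rw [sum_sub_distrib, ← sum_div, hs]
  simp only [sum_const, card_range, nsmul_eq_mul, mul_one]
  push_cast
  field_simp
  ring

lemma lower_bound [MulAction.IsPretransitive Γ V] [Nonempty V] (r s : ℕ → V)
    (h : ∀ g : Γ, ∃ i, g • r i = s i) :
    ((Fintype.card V : ℝ) - 1) / 2 ≤ meanMeet Γ r s := by
  classical
  have := main_ineq r s h
  have hΓ : (0 : ℝ) < Fintype.card Γ := by exact_mod_cast Fintype.card_pos
  unfold meanMeet
  rw [le_div_iff₀ hΓ]
  have h0 : (0 : ℝ) ≤ (univ.filter (fun g : Γ => ¬ fm r s g < Fintype.card V)).card := by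
    positivity
  simp only [fm] at this
  linarith

/-- Optimal pairs have pairwise disjoint meeting events. -/
lemma disjoint_of_optimal [MulAction.IsPretransitive Γ V] [Nonempty V] (r s : ℕ → V)
    (h : ∀ g : Γ, ∃ i, g • r i = s i)
    (hopt : meanMeet Γ r s = ((Fintype.card V : ℝ) - 1) / 2)
    (i j : ℕ) (hij : i < j) (hj : j < Fintype.card V) (g : Γ)
    (hi : g • r i = s i) : g • r j ≠ s j := by
  classical
  intro hgj
  have hmain := main_ineq r s h
  have hΓ : (0 : ℝ) < Fintype.card Γ := by exact_mod_cast Fintype.card_pos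
  unfold meanMeet at hopt
  rw [div_eq_iff hΓ.ne'] at hopt
  have h0 : ((univ.filter (fun g : Γ => ¬ fm r s g < Fintype.card V)).card : ℝ) ≤ 0 := by
    simp only [fm] at hmain ⊢
    linarith
  have h1 : (univ.filter (fun g : Γ => ¬ fm r s g < Fintype.card V)).card = 0 := by
    have : ((univ.filter (fun g : Γ => ¬ fm r s g < Fintype.card V)).card : ℝ) = 0 :=
      le_antisymm h0 (by positivity)
    exact_mod_cast this
  have hall : ∀ g : Γ, fm r s g < Fintype.card V := by
    intro g
    by_contra hc
    have : g ∈ univ.filter (fun g : Γ => ¬ fm r s g < Fintype.card V) := by simpa using hc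
    rw [card_eq_zero] at h1
    rw [h1] at this
    simp at this
  set n := Fintype.card V with hn
  -- cover of univ by E_k (k < n, k ≠ j) and E_j minus g
  let E : ℕ → Finset Γ := fun k => univ.filter (fun g : Γ => g • r k = s k)
  have hcov : (univ : Finset Γ) ⊆ ((range n).erase j).biUnion E ∪ (E j).erase g := by
    intro g' _
    simp only [mem_union, mem_biUnion, mem_erase, mem_range, E, mem_filter, mem_univ, true_and]
    by_cases hg : g' = g
    · left; exact ⟨i, ⟨by omega, by omega⟩, hg ▸ hi⟩
    · have hm : g' • r (fm r s g') = s (fm r s g') :=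
        Nat.sInf_mem (s := {i : ℕ | g' • r i = s i}) (h g')
      by_cases hk : fm r s g' = j
      · right; exact ⟨hg, hk ▸ hm⟩
      · left; exact ⟨_, ⟨hk, hall g'⟩, hm⟩
  have hE : ∀ k, (E k).card * n = Fintype.card Γ := fun k => card_fiber_mul _ _
  have hgE : g ∈ E j := by simpa [E] using hgj
  have c1 : Fintype.card Γ ≤ ∑ k ∈ (range n).erase j, (E k).card + ((E j).card - 1) := by
    calc Fintype.card Γ = (univ : Finset Γ).card := rfl
      _ ≤ _ := card_le_card hcov
      _ ≤ (((range n).erase j).biUnion E).card + ((E j).erase g).card := card_union_le _ _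
      _ ≤ _ := add_le_add card_biUnion_le (by rw [card_erase_of_mem hgE])
  have hn0 : 0 < n := Fintype.card_pos
  have hEq : ∀ k, (E k).card = (E j).card := fun k =>
    Nat.eq_of_mul_eq_mul_right hn0 ((hE k).trans (hE j).symm)
  rw [sum_congr rfl (fun k _ => hEq k), sum_const, card_erase_of_mem (by simpa using hj),
    card_range, smul_eq_mul] at c1
  have hpos : 0 < (E j).card := card_pos.2 ⟨g, hgE⟩
  have := hE j
  obtain ⟨m, hm⟩ : ∃ m, n = m + 1 := ⟨n - 1, by omega⟩
  rw [hm] at c1 this
  simp only [Nat.add_sub_cancel] at c1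
  have : (E j).card * (m + 1) = m * (E j).card + (E j).card := by ring
  omega

/-- If the meeting event at time `i` is `g • o = w i` with `w` a bijection from the first `n`
times onto the vertices, the pair is optimal. -/
lemma optimal_of_bij [MulAction.IsPretransitive Γ V] (r s : ℕ → V) (o : V) (w : ℕ → V)
    (hw : ∀ i < Fintype.card V, ∀ g : Γ, g • r i = s i ↔ g • o = w i)
    (hinj : ∀ i < Fintype.card V, ∀ j < Fintype.card V, w i = w j → i = j) :
    (∀ g : Γ, ∃ i, g • r i = s i) ∧ meanMeet Γ r s = ((Fintype.card V : ℝ) - 1) / 2 := by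
  classical
  set n := Fintype.card V with hn
  have hbij : Function.Bijective (fun i : Fin n => w i) := by
    rw [Fintype.bijective_iff_injective_and_card]
    refine ⟨fun i j e => Fin.ext (hinj _ i.2 _ j.2 e), by simp [hn]⟩
  let e : Fin n ≃ V := Equiv.ofBijective _ hbij
  have hfm : ∀ g : Γ, sInf {i : ℕ | g • r i = s i} = (e.symm (g • o) : ℕ) := by
    intro g
    have hmem : g • r (e.symm (g • o) : ℕ) = s (e.symm (g • o) : ℕ) := by
      rw [hw _ (e.symm (g • o)).2]
      exact (e.apply_symm_apply (g • o)).symm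
    refine le_antisymm (Nat.sInf_le hmem) ?_
    refine le_csInf ⟨_, hmem⟩ ?_
    intro i hi
    by_contra hlt
    have hi' : i < n := lt_trans (not_le.1 hlt) (e.symm (g • o)).2
    have h1 := (hw i hi' g).1 hi
    have h2 : w i = w (e.symm (g • o) : ℕ) := by
      rw [← h1]; exact (e.apply_symm_apply (g • o)).symm
    have := hinj _ hi' _ (e.symm (g • o)).2 h2
    omega
  refine ⟨fun g => ⟨(e.symm (g • o) : ℕ), ?_⟩, ?_⟩
  · rw [hw _ (e.symm (g • o)).2]
    exact (e.apply_symm_apply (g • o)).symm
  · unfold meanMeet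
    simp_rw [hfm]
    have hΓ : (0 : ℝ) < Fintype.card Γ := by exact_mod_cast Fintype.card_pos
    have hV : Nonempty V := ⟨o⟩
    have hn0 : (0 : ℝ) < n := by exact_mod_cast Fintype.card_pos
    rw [div_eq_iff hΓ.ne']
    have h1 : ∑ g : Γ, ((e.symm (g • o) : ℕ) : ℝ)
        = ∑ y : V, ((univ.filter (fun g : Γ => g • o = y)).card : ℝ) * ((e.symm y : ℕ) : ℝ) := by
      rw [← sum_fiberwise (s := (univ : Finset Γ)) (g := fun g : Γ => g • o)]
      refine sum_congr rfl (fun y _ => ?_)
      rw [sum_congr rfl (g := fun _ => ((e.symm y : ℕ) : ℝ))]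
      · simp
      · intro g hg
        simp only [mem_filter, mem_univ, true_and] at hg
        rw [hg]
    have h2 : ∀ y : V, ((univ.filter (fun g : Γ => g • o = y)).card : ℝ)
        = Fintype.card Γ / n := by
      intro y
      rw [eq_div_iff hn0.ne']
      exact_mod_cast card_fiber_mul (Γ := Γ) o y
    rw [h1]
    simp_rw [h2]
    rw [← mul_sum, ← e.sum_comp]
    simp only [Equiv.symm_apply_apply]
    have hs : ∀ m : ℕ, ∑ k : Fin m, ((k : ℕ) : ℝ) = m * (m - 1) / 2 := by
      intro m
      rw [Fin.sum_univ_eq_sum_range (fun k => (k : ℝ)) m]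
      induction m with
      | zero => simp
      | succ m ih => rw [sum_range_succ, ih]; push_cast; ring
    rw [hs]
    field_simp

end count

end Pool.Agent.P.MP_01accb_co
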