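import Pool.Agent.P.MP_01accb_co.Zig

set_option autoImplicit false

open Pointwise

namespace Pool.Agent.P.MP_01accb_co

variable {V : Type} {X : SimpleGraph V} {Γ : Type} [Group Γ] [MulAction Γ V]

/-- Permutations commuting with `Γ` and sending `o` into the block `B`. -/
def cent (Γ : Type) [Group Γ] [MulAction Γ V] [MulAction.IsPretransitive Γ V] (B : Set V)
    (hB : MulAction.IsBlock Γ B) (o : V) (ho : o ∈ B) : Subgroup (Equiv.Perm V) where
  carrier := {β | (∀ (g : Γ) (v : V), β (g • v) = g • β v) ∧ β o ∈ B}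
  one_mem' := ⟨fun _ _ => rfl, ho⟩
  mul_mem' := by
    rintro β β' ⟨h1, h2⟩ ⟨h1', h2'⟩
    refine ⟨fun g v => by simp [h1, h1'], ?_⟩
    obtain ⟨k, hk⟩ := MulAction.exists_smul_eq Γ o (β' o)
    have hkB : k • B = B := hB.smul_eq_of_mem ho (hk ▸ h2')
    rw [Equiv.Perm.mul_apply, ← hk, h1, ← hkB]
    exact Set.smul_mem_smul_set h2
  inv_mem' := by
    rintro β ⟨h1, h2⟩
    refine ⟨fun g v => ?_, ?_⟩
    · apply β.injective
      rw [h1]; simp
    · obtain ⟨k, hk⟩ := MulAction.exists_smul_eq Γ o (β o)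
      have hkB : k • B = B := hB.smul_eq_of_mem ho (hk ▸ h2)
      have : β⁻¹ o = k⁻¹ • o := by
        apply β.injective
        rw [h1, ← hk]; simp
      rw [this, ← Set.mem_smul_set_iff_inv_smul_mem, hkB]
      exact ho

lemma value_of_block [Fintype V] [Fintype Γ] [MulAction.IsPretransitive Γ V]
    (hadj : ∀ (g : Γ) (u v : V), X.Adj u v → X.Adj (g • u) (g • v))
    (B : Set V) (hB : MulAction.IsBlock Γ B) (hcon : (X.induce B).Connected)
    (hab : ∀ g h : Γ, g • B = B → h • B = B → ∀ x ∈ B, g • h • x = h • g • x)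
    (P : List V) (hPc : P.IsChain X.Adj) (hP : P.Nodup)
    (hmeet : ∀ g : Γ, ∃ x ∈ P, x ∈ g • B) : ValueIsHalf X Γ := by
  classical
  obtain ⟨⟨o, ho⟩⟩ := hcon.nonempty
  have hdet : ∀ β β' : cent Γ B hB o ho, β.1 o = β'.1 o → β = β' := by
    intro β β' e
    ext v
    obtain ⟨g, rfl⟩ := MulAction.exists_smul_eq Γ o v
    rw [β.2.1, β'.2.1, e]
  have hex : ∀ x ∈ B, ∃ β : cent Γ B hB o ho, β.1 o = x := by
    intro x hx
    obtain ⟨k, hk⟩ := MulAction.exists_smul_eq Γ o x
    have hkB : k • B = B := hB.smul_eq_of_mem ho (hk ▸ hx)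
    have hwd : ∀ g g' : Γ, g • o = g' • o → g • x = g' • x := by
      intro g g' e
      have h1 : (g'⁻¹ * g) • o = o := by rw [mul_smul, e, inv_smul_smul]
      have h2 : (g'⁻¹ * g) • B = B := hB.smul_eq_of_mem ho (by rw [h1]; exact ho)
      have h3 := hab _ _ h2 hkB o ho
      rw [h1, hk, mul_smul, inv_smul_eq_iff] at h3
      exact h3
    have hwd' : ∀ g g' : Γ, g • x = g' • x → g • o = g' • o := by
      intro g g' e
      have h1 : (g'⁻¹ * g) • x = x := by rw [mul_smul, e, inv_smul_smul]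
      have h2 : (g'⁻¹ * g) • B = B := hB.smul_eq_of_mem hx (by rw [h1]; exact hx)
      have h3 := hab _ _ h2 hkB o ho
      rw [hk, h1] at h3
      have h4 : (g'⁻¹ * g) • o = o := by
        apply MulAction.injective k
        simp only
        rw [← h3, hk]
      rwa [mul_smul, inv_smul_eq_iff] at h4
    choose γ hγ using fun v => MulAction.exists_smul_eq Γ o v
    have hinj : Function.Injective (fun v => γ v • x) := by
      intro v v' e
      rw [← hγ v, ← hγ v']
      exact hwd' _ _ e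
    let β : Equiv.Perm V := Equiv.ofBijective _ (Finite.injective_iff_bijective.1 hinj)
    have hβ : ∀ g : Γ, β (g • o) = g • x := fun g => hwd _ _ (hγ _)
    have hβo : β o = x := by simpa using hβ 1
    refine ⟨⟨β, ?_, hβo ▸ hx⟩, hβo⟩
    intro g v
    obtain ⟨g', rfl⟩ := MulAction.exists_smul_eq Γ o v
    rw [← mul_smul, hβ, hβ, mul_smul]
  letI : CommGroup (cent Γ B hB o ho) :=
    { (inferInstance : Group (cent Γ B hB o ho)) with
      mul_comm := by
        intro β β'
        apply hdet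
        obtain ⟨k, hk⟩ := MulAction.exists_smul_eq Γ o (β.1 o)
        obtain ⟨k', hk'⟩ := MulAction.exists_smul_eq Γ o (β'.1 o)
        have hkB : k • B = B := hB.smul_eq_of_mem ho (hk ▸ β.2.2)
        have hkB' : k' • B = B := hB.smul_eq_of_mem ho (hk' ▸ β'.2.2)
        show β.1 (β'.1 o) = β'.1 (β.1 o)
        rw [← hk', β.2.1, ← hk, β'.2.1, ← hk']
        exact hab _ _ hkB' hkB o ho }
  let T : Set (cent Γ B hB o ho) := {β | X.Adj o (β.1 o)}
  have hsm : ∀ (β : cent Γ B hB o ho) (v : V), β • v = β.1 v := fun _ _ => rfl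
  have hne : P ≠ [] := by
    obtain ⟨x, hx, -⟩ := hmeet 1
    exact List.ne_nil_of_mem hx
  refine value_of_centraliser (A := cent Γ B hB o ho) (T := T) ?_ ?_ ?_ ?_ P hne hPc hP ?_
  · intro g β v
    rw [hsm, hsm, β.2.1]
  · intro β hβ v
    obtain ⟨g, rfl⟩ := MulAction.exists_smul_eq Γ o v
    rw [hsm, β.2.1]
    exact hadj g _ _ hβ
  · rw [eq_top_iff]
    have key : ∀ (x y : B) (_ : (X.induce B).Walk x y) (β β' : cent Γ B hB o ho),
        β.1 o = x → β'.1 o = y → β ∈ Subgroup.closure T → β' ∈ Subgroup.closure T := by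
      intro x y w
      induction w with
      | nil => intro β β' h h' hm; rwa [← hdet β β' (h.trans h'.symm)]
      | @cons x z y hxz _ ih =>
        intro β β' h h' hm
        obtain ⟨δ, hδ⟩ := hex z.1 z.2
        refine ih δ β' hδ h' ?_
        have hT : δ * β⁻¹ ∈ T := by
          obtain ⟨k, hk⟩ := MulAction.exists_smul_eq Γ o (β.1 o)
          have e1 : (β⁻¹).1 o = k⁻¹ • o := by
            apply β.1.injective
            rw [β.2.1, ← hk]; simp
          show X.Adj o (δ.1 ((β⁻¹).1 o))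
          rw [e1, δ.2.1, hδ]
          have := hadj k⁻¹ _ _ (show X.Adj x.1 z.1 from hxz)
          rwa [← h, ← hk, inv_smul_smul] at this
        have : δ = δ * β⁻¹ * β := by simp
        rw [this]
        exact Subgroup.mul_mem _ (Subgroup.subset_closure hT) hm
    intro β _
    obtain ⟨w⟩ := hcon.preconnected ⟨o, ho⟩ ⟨β.1 o, β.2.2⟩
    exact key _ _ w 1 β rfl rfl (Subgroup.one_mem _)
  · intro β v hv
    apply hdet
    obtain ⟨g, rfl⟩ := MulAction.exists_smul_eq Γ o v
    rw [hsm, β.2.1] at hv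
    exact MulAction.injective g hv
  · intro v
    obtain ⟨g, rfl⟩ := MulAction.exists_smul_eq Γ o v
    obtain ⟨x, hx, y, hy, rfl⟩ := hmeet g
    obtain ⟨β, hβ⟩ := hex y hy
    exact ⟨β, by rw [hsm, β.2.1, hβ]; exact hx⟩

end Pool.Agent.P.MP_01accb_co
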