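import Pool.Agent.P.MP_01accb_co.Block

set_option autoImplicit false

open Pointwise

namespace Pool.Agent.P.MP_01accb_co

variable {V : Type} {X : SimpleGraph V} {Γ : Type} [Group Γ] [MulAction Γ V]

lemma path_in_block (hadj : ∀ (g : Γ) (u v : V), X.Adj u v → X.Adj (g • u) (g • v))
    (B : Set V) (hcon : (X.induce B).Connected) (g : Γ) (x y : V) (hx : x ∈ g • B)
    (hy : y ∈ g • B) :
    ∃ l : List V, l.head? = some x ∧ l.getLast? = some y ∧ l.IsChain X.Adj ∧ l.Nodup ∧
      ∀ z ∈ l, z ∈ g • B := by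
  classical
  obtain ⟨x', hx', rfl⟩ := hx
  obtain ⟨y', hy', rfl⟩ := hy
  obtain ⟨w⟩ := hcon.preconnected ⟨x', hx'⟩ ⟨y', hy'⟩
  let p := w.toPath
  refine ⟨p.1.support.map (fun z => g • z.1), ?_, ?_, ?_, ?_, ?_⟩
  · rw [List.head?_map, List.head?_eq_some_head p.1.support_ne_nil]; simp
  · rw [List.getLast?_map, List.getLast?_eq_some_getLast p.1.support_ne_nil]; simp
  · exact List.isChain_map_of_isChain _ (fun a b h => hadj g _ _ h) p.1.isChain_adj_support
  · refine p.2.support_nodup.map ?_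
    intro a b e
    exact Subtype.ext (MulAction.injective g e)
  · intro z hz
    obtain ⟨a, -, rfl⟩ := List.mem_map.1 hz
    exact Set.smul_mem_smul_set a.2

/-- Lifting a path of blocks to a path of vertices. -/
lemma lift_blocks (hadj : ∀ (g : Γ) (u v : V), X.Adj u v → X.Adj (g • u) (g • v))
    (B : Set V) (hB : MulAction.IsBlock Γ B) (hcon : (X.induce B).Connected) :
    ∀ (L : List Γ) (g : Γ), (g :: L).IsChain (fun a b => ∃ x ∈ a • B, ∃ y ∈ b • B, X.Adj x y) →
      (g :: L).Pairwise (fun a b => a • B ≠ b • B) → ∀ x ∈ g • B,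
      ∃ l : List V, l.head? = some x ∧ l.IsChain X.Adj ∧ l.Nodup ∧
        (∀ z ∈ l, ∃ a ∈ g :: L, z ∈ a • B) ∧ ∀ a ∈ g :: L, ∃ z ∈ l, z ∈ a • B
  | [], g, _, _, x, hx => ⟨[x], rfl, by simp, by simp, by simpa using hx, by simpa using hx⟩
  | b :: L, g, hc, hp, x, hx => by
      obtain ⟨⟨y, hy, x', hx', hyx⟩, hc'⟩ := List.isChain_cons_cons.1 hc
      obtain ⟨hp1, hp2⟩ := List.pairwise_cons.1 hp
      obtain ⟨l2, h1, h2, h3, h4, h5⟩ := lift_blocks hadj B hB hcon L b hc' hp2 x' hx'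
      obtain ⟨l1, k1, k2, k3, k4, k5⟩ := path_in_block hadj B hcon g x y hx hy
      refine ⟨l1 ++ l2, by simp [k1], ?_, ?_, ?_, ?_⟩
      · refine k3.append h2 ?_
        intro a ha c hc
        rw [k2] at ha
        rw [h1] at hc
        simp only [Option.mem_def, Option.some.injEq] at ha hc
        subst ha hc
        exact hyx
      · refine List.Nodup.append k4 h3 ?_
        intro z hz1 hz2
        obtain ⟨a, ha, hza⟩ := h4 z hz2
        exact Set.disjoint_left.1 (hB (hp1 a ha)) (k5 z hz1) hza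
      · intro z hz
        rcases List.mem_append.1 hz with h | h
        · exact ⟨g, by simp, k5 z h⟩
        · obtain ⟨a, ha, hza⟩ := h4 z h
          exact ⟨a, List.mem_cons_of_mem _ ha, hza⟩
      · intro a ha
        rcases List.mem_cons.1 ha with rfl | ha
        · exact ⟨x, List.mem_append_left _ (List.mem_of_mem_head? k1), hx⟩
        · obtain ⟨z, hz, hza⟩ := h5 a ha
          exact ⟨z, List.mem_append_right _ hz, hza⟩

lemma exists_path_of_abelian [Finite Γ] [MulAction.IsPretransitive Γ V] (hX : X.Connected)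
    (hadj : ∀ (g : Γ) (u v : V), X.Adj u v → X.Adj (g • u) (g • v))
    (B : Set V) (hB : MulAction.IsBlock Γ B) (hcon : (X.induce B).Connected)
    (N : Subgroup Γ) (hN : ∀ a ∈ N, ∀ b ∈ N, a * b = b * a)
    (htr : ∀ g : Γ, ∃ a ∈ N, a • B = g • B) :
    ∃ P : List V, P.IsChain X.Adj ∧ P.Nodup ∧ ∀ g : Γ, ∃ x ∈ P, x ∈ g • B := by
  classical
  obtain ⟨⟨o, ho⟩⟩ := hcon.nonempty
  letI : CommGroup N :=
    { (inferInstance : Group N) with
      mul_comm := fun a b => Subtype.ext (hN _ a.2 _ b.2) }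
  let K : Subgroup N := MulAction.stabilizer N B
  have hK : ∀ a b : N, (QuotientGroup.mk a : N ⧸ K) = QuotientGroup.mk b ↔
      (a : Γ) • B = (b : Γ) • B := by
    intro a b
    rw [QuotientGroup.eq, MulAction.mem_stabilizer_iff, mul_smul, inv_smul_eq_iff, eq_comm]
    rfl
  let T : Set (N ⧸ K) :=
    {q | ∃ a : N, QuotientGroup.mk a = q ∧ ∃ x ∈ B, ∃ y ∈ (a : Γ) • B, X.Adj x y}
  have hcover : ∀ v : V, ∃ a : N, v ∈ (a : Γ) • B := by
    intro v
    obtain ⟨g, rfl⟩ := MulAction.exists_smul_eq Γ o v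
    obtain ⟨a, ha, e⟩ := htr g
    exact ⟨⟨a, ha⟩, by rw [e]; exact Set.smul_mem_smul_set ho⟩
  have hgen : Subgroup.closure T = ⊤ := by
    rw [eq_top_iff]
    have key : ∀ (x y : V) (_ : X.Walk x y) (a b : N), x ∈ (a : Γ) • B → y ∈ (b : Γ) • B →
        (QuotientGroup.mk a : N ⧸ K) ∈ Subgroup.closure T →
        (QuotientGroup.mk b : N ⧸ K) ∈ Subgroup.closure T := by
      intro x y w
      induction w with
      | nil =>
        intro a b h h' hm
        rwa [← (hK a b).2 (hB.smul_eq_smul_of_nonempty ⟨_, h, h'⟩)]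
      | @cons x z y hxz _ ih =>
        intro a b h h' hm
        obtain ⟨c, hc⟩ := hcover z
        refine ih c b hc h' ?_
        have hT : (QuotientGroup.mk (a⁻¹ * c) : N ⧸ K) ∈ T := by
          refine ⟨a⁻¹ * c, rfl, (a : Γ)⁻¹ • x, Set.mem_smul_set_iff_inv_smul_mem.1 h,
            (a : Γ)⁻¹ • z, ?_, hadj _ _ _ hxz⟩
          rw [Subgroup.coe_mul, mul_smul]
          exact Set.smul_mem_smul_set hc
        have : (QuotientGroup.mk c : N ⧸ K) = QuotientGroup.mk a * QuotientGroup.mk (a⁻¹ * c) := by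
          rw [← QuotientGroup.mk_mul]; simp
        rw [this]
        exact Subgroup.mul_mem _ hm (Subgroup.subset_closure hT)
    intro q _
    obtain ⟨a, rfl⟩ := QuotientGroup.mk_surjective q
    obtain ⟨w⟩ := hX.preconnected o ((a : Γ) • o)
    refine key _ _ w 1 a (by simpa using ho) (Set.smul_mem_smul_set ho) ?_
    exact Subgroup.one_mem _
  obtain ⟨F, hF0, hFc, hFn, hFm⟩ := abelian_path hgen
  let φ : N ⧸ K → Γ := fun q => ((Quotient.out q : N) : Γ)
  have hφ : ∀ a : N, φ (QuotientGroup.mk a) • B = (a : Γ) • B := fun a =>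
    (hK _ _).1 (QuotientGroup.out_eq' _)
  obtain ⟨q0, F', rfl⟩ : ∃ q0 F', F = q0 :: F' := by
    cases F with
    | nil => simp at hF0
    | cons a l => exact ⟨a, l, rfl⟩
  obtain ⟨l, -, h2, h3, -, h5⟩ := lift_blocks hadj B hB hcon (F'.map φ) (φ q0) (by
      rw [← List.map_cons]
      refine List.isChain_map_of_isChain _ ?_ hFc
      rintro q q' ⟨t, ⟨a, rfl, x, hx, y, hy, hxy⟩, rfl⟩
      obtain ⟨c, rfl⟩ := QuotientGroup.mk_surjective q
      rw [← QuotientGroup.mk_mul, hφ, hφ, mul_comm a c, Subgroup.coe_mul, mul_smul]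
      exact ⟨_, Set.smul_mem_smul_set hx, _, Set.smul_mem_smul_set hy, hadj _ _ _ hxy⟩)
    (by
      rw [← List.map_cons, List.pairwise_map]
      refine List.Pairwise.imp ?_ hFn
      intro q q' hne e
      apply hne
      have := (hK _ _).2 e
      rwa [QuotientGroup.out_eq', QuotientGroup.out_eq'] at this)
    (φ q0 • o) (Set.smul_mem_smul_set ho)
  refine ⟨l, h2, h3, fun g => ?_⟩
  obtain ⟨a, ha, e⟩ := htr g
  obtain ⟨z, hz, hza⟩ := h5 (φ (QuotientGroup.mk ⟨a, ha⟩)) (by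
    rw [← List.map_cons]; exact List.mem_map_of_mem (hFm _))
  rw [hφ] at hza
  exact ⟨z, hz, e ▸ hza⟩

end Pool.Agent.P.MP_01accb_co
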