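import Pool.Agent.P.MP_01accb_co.Basic
import Pool.Agent.P.MP_01accb_co.AbPath

set_option autoImplicit false

namespace Pool.Agent.P.MP_01accb_co

section zig

variable {V : Type} (X : SimpleGraph V) {A : Type} [CommGroup A] [MulAction A V] (T : Set A)

/-- Allowed change of the first coordinate. -/
def RStep (a b : A) : Prop := b = a ∨ ∃ t ∈ T, b = t * a ∨ a = t * b

/-- Allowed step between states. -/
def St (z z' : A × V) : Prop := RStep T z.1 z'.1 ∧ (z'.2 = z.2 ∨ X.Adj z.2 z'.2)

/-- The vertex collected in a state. -/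
def col (z : A × V) : V := z.1⁻¹ • z.2

/-- Step relation on vertices. -/
def VStep (x y : V) : Prop := ∃ t ∈ T, y = t • x

variable {X T}

lemma zig (hT : ∀ t ∈ T, ∀ v, X.Adj v (t • v)) :
    ∀ (G : List V) (ρ : A) (q : V), (col (ρ, q) :: G).IsChain (VStep T) →
    ∃ (L : List (A × V)) (ρ' : A), (ρ' = ρ ∨ ∃ t ∈ T, ρ = t * ρ') ∧
      ((ρ, q) :: L).IsChain (St X T) ∧ ((ρ, q) :: L).getLast? = some (ρ', q) ∧
      (L.map col).Perm G
  | [], ρ, q, _ => ⟨[], ρ, Or.inl rfl, by simp, by simp, by simp⟩
  | [x], ρ, q, h => by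
      obtain ⟨t, ht, hx⟩ := (List.isChain_cons_cons.1 h).1
      refine ⟨[(t⁻¹ * ρ, q)], t⁻¹ * ρ, Or.inr ⟨t, ht, by simp⟩, ?_, by simp, ?_⟩
      · refine List.isChain_cons_cons.2 ⟨⟨Or.inr ⟨t, ht, Or.inr (by simp)⟩, Or.inl rfl⟩, by simp⟩
      · simp only [List.map_cons, List.map_nil, List.perm_singleton, List.cons.injEq, and_true]
        rw [hx]; simp only [col, mul_inv_rev, inv_inv, smul_smul, mul_comm]
  | x :: y :: G, ρ, q, h => by
      obtain ⟨⟨t, ht, hx⟩, h2⟩ := List.isChain_cons_cons.1 h
      obtain ⟨⟨u, hu, hy⟩, h3⟩ := List.isChain_cons_cons.1 h2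
      have hcy : col (t⁻¹ * ρ, u • q) = y := by
        rw [hy, hx]; simp only [col, mul_inv_rev, inv_inv, smul_smul]
        congr 1
        simp [mul_comm, mul_left_comm]
      have hcx : col (t⁻¹ * ρ, q) = x := by
        rw [hx]; simp only [col, mul_inv_rev, inv_inv, smul_smul, mul_comm]
      obtain ⟨L, ρ', hρ', hc, hl, hp⟩ := zig hT G (t⁻¹ * ρ) (u • q) (by rw [hcy]; exact h3)
      refine ⟨((t⁻¹ * ρ, u • q) :: L) ++ [(t⁻¹ * ρ, q)], t⁻¹ * ρ, Or.inr ⟨t, ht, by simp⟩,
        ?_, ?_, ?_⟩
      · rw [List.cons_append, List.isChain_cons_cons]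
        refine ⟨⟨Or.inr ⟨t, ht, Or.inr (by simp)⟩, Or.inr (hT u hu q)⟩, ?_⟩
        rw [← List.cons_append]
        refine hc.append (by simp) ?_
        intro a ha b hb
        rw [hl] at ha
        simp only [Option.mem_def, Option.some.injEq, List.head?_cons] at ha hb
        subst ha hb
        refine ⟨?_, Or.inr (hT u hu q).symm⟩
        rcases hρ' with h | ⟨v, hv, h⟩
        · exact Or.inl h.symm
        · exact Or.inr ⟨v, hv, Or.inl h⟩
      · rw [← List.cons_append, List.getLast?_append]; simp
      · simp only [List.map_append, List.map_cons, List.map_nil, hcy, hcx]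
        refine (List.perm_append_singleton _ _).trans ?_
        exact (hp.cons y).cons x

lemma assemble (hT : ∀ t ∈ T, ∀ v, X.Adj v (t • v)) (gap : V → List V)
    (hgap : ∀ v, (v :: gap v).IsChain (VStep T)) :
    ∀ P : List V, P.IsChain X.Adj → ∃ L : List (A × V), L.IsChain (St X T) ∧
      L.head? = P.head?.map (fun v => ((1 : A), v)) ∧
      (L.map col).Perm (P.flatMap (fun v => v :: gap v))
  | [], _ => ⟨[], by simp, by simp, by simp⟩
  | v :: P, h => by
      obtain ⟨L', hc', hh', hp'⟩ := assemble hT gap hgap P h.tail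
      obtain ⟨L, ρ', hρ', hc, hl, hp⟩ := zig (X := X) hT (gap v) 1 v (by simpa [col] using hgap v)
      refine ⟨(((1 : A), v) :: L) ++ L', ?_, by simp, ?_⟩
      · refine hc.append hc' ?_
        intro a ha b hb
        rw [hl] at ha
        rw [hh'] at hb
        simp only [Option.mem_def, Option.some.injEq, Option.map_eq_some_iff] at ha hb
        obtain ⟨w, hw, rfl⟩ := hb
        subst ha
        refine ⟨?_, Or.inr ((List.isChain_cons.1 h).1 w hw)⟩
        rcases hρ' with h | ⟨t, ht, h⟩
        · exact Or.inl h.symm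
        · exact Or.inr ⟨t, ht, Or.inl h⟩
      · simp only [List.map_append, List.map_cons, List.flatMap_cons]
        refine List.Perm.append ?_ hp'
        have : col ((1 : A), v) = v := by simp [col]
        rw [this]
        exact hp.cons v

end zig

section gaps

variable {V : Type} {A : Type} [CommGroup A] [MulAction A V] {T : Set A}

lemma exists_gaps [Finite A] (hT : Subgroup.closure T = ⊤)
    (hfree : ∀ (a : A) (v : V), a • v = v → a = 1)
    (P : List V) (hP : P.Nodup) (hmeet : ∀ v : V, ∃ a : A, a • v ∈ P) :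
    ∃ gap : V → List V, (∀ v, (v :: gap v).IsChain (VStep T)) ∧
      (P.flatMap (fun v => v :: gap v)).Nodup ∧ ∀ x, x ∈ P.flatMap (fun v => v :: gap v) := by
  classical
  obtain ⟨F, hF0, hFc, hFn, hFm⟩ := abelian_path hT
  set N := F.length with hN
  let f : ℕ → A := fun i => F.getD i 1
  have hf : ∀ i (h : i < N), f i = F[i] := fun i h => List.getD_eq_getElem _ _ h
  have hN0 : 0 < N := List.length_pos_of_mem (hFm 1)
  have hf0 : f 0 = 1 := by
    rw [hf 0 hN0]
    rw [List.head?_eq_getElem?, List.getElem?_eq_getElem hN0] at hF0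
    exact Option.some.inj hF0
  have hfs : ∀ i, i + 1 < N → ∃ t ∈ T, f (i + 1) = t * f i := by
    intro i hi
    rw [hf _ hi, hf i (by omega)]
    exact List.isChain_iff_getElem.1 hFc i hi
  have hfi : ∀ i < N, ∀ j < N, f i = f j → i = j := by
    intro i hi j hj e
    rw [hf i hi, hf j hj] at e
    exact (List.Nodup.getElem_inj_iff hFn).1 e
  have hfsurj : ∀ a, ∃ i < N, f i = a := by
    intro a
    obtain ⟨i, hi, e⟩ := List.getElem_of_mem (hFm a)
    exact ⟨i, hi, by rw [hf i hi, e]⟩
  -- base point of each orbit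
  have hb : ∀ ω : MulAction.orbitRel.Quotient A V, ∃ b ∈ P, Quotient.mk'' b = ω := by
    intro ω
    obtain ⟨v, rfl⟩ := Quotient.exists_rep ω
    obtain ⟨a, ha⟩ := hmeet v
    exact ⟨a • v, ha, Quotient.sound ⟨a, rfl⟩⟩
  choose bs hbsP hbs using hb
  let base : V → V := fun x => bs (Quotient.mk'' x)
  have hbase_smul : ∀ (a : A) x, base (a • x) = base x := by
    intro a x
    simp only [base]
    congr 1
    exact Quotient.sound ⟨a, rfl⟩
  have hbase_base : ∀ x, base (base x) = base x := by
    intro x
    simp only [base]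
    rw [hbs]
  have hidx : ∀ x, ∃ i < N, f i • base x = x := by
    intro x
    have : (MulAction.orbitRel A V) x (base x) := Quotient.exact (hbs (Quotient.mk'' x)).symm
    obtain ⟨a, ha⟩ := this
    obtain ⟨i, hi, e⟩ := hfsurj a
    exact ⟨i, hi, by rw [e]; exact ha⟩
  choose idx hidxN hidxe using hidx
  have hinj : ∀ (b : V), ∀ i < N, ∀ j < N, f i • b = f j • b → i = j := by
    intro b i hi j hj e
    refine hfi i hi j hj ?_
    have := hfree ((f j)⁻¹ * f i) b (by rw [mul_smul, e, inv_smul_smul])
    exact (inv_mul_eq_one.1 this).symm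
  have hbe : ∀ x i, base (f i • base x) = base x := fun x i => by rw [hbase_smul, hbase_base]
  have hidx_e : ∀ x, ∀ i < N, idx (f i • base x) = i := by
    intro x i hi
    refine hinj (base x) _ (hidxN _) i hi ?_
    have := hidxe (f i • base x)
    rwa [hbe] at this
  have hstop : ∀ v, ∃ k, idx v + 1 + k = N ∨ f (idx v + 1 + k) • base v ∈ P :=
    fun v => ⟨N - (idx v + 1), Or.inl (by have := hidxN v; omega)⟩
  let len : V → ℕ := fun v => Nat.find (hstop v)
  have hlenN : ∀ v, idx v + len v < N := by
    intro v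
    have h1 : len v ≤ N - (idx v + 1) :=
      Nat.find_min' (hstop v) (Or.inl (by have := hidxN v; omega))
    have := hidxN v
    omega
  let gap : V → List V := fun v => (List.range' (idx v + 1) (len v)).map (fun i => f i • base v)
  have hcons : ∀ v, v :: gap v
      = (List.range' (idx v) (len v + 1)).map (fun i => f i • base v) := by
    intro v
    rw [List.range'_succ, List.map_cons, hidxe]
  have hmem : ∀ v x, x ∈ v :: gap v ↔
      base x = base v ∧ idx v ≤ idx x ∧ idx x ≤ idx v + len v := by
    intro v x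
    rw [hcons, List.mem_map]
    constructor
    · rintro ⟨i, hi, rfl⟩
      rw [List.mem_range'_1] at hi
      have := hlenN v
      rw [hidx_e v i (by omega)]
      exact ⟨hbe v i, by omega, by omega⟩
    · rintro ⟨h1, h2, h3⟩
      exact ⟨idx x, by rw [List.mem_range'_1]; omega, by rw [← h1, hidxe]⟩
  refine ⟨gap, ?_, ?_, ?_⟩
  · intro v
    rw [hcons, List.isChain_iff_getElem]
    intro i hi
    simp only [List.length_map, List.length_range'] at hi
    simp only [List.getElem_map, List.getElem_range', one_mul]
    have := hlenN v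
    obtain ⟨t, ht, e⟩ := hfs (idx v + i) (by omega)
    exact ⟨t, ht, by rw [← add_assoc, e, mul_smul]⟩
  · rw [List.nodup_flatMap]
    refine ⟨?_, ?_⟩
    · intro v _
      rw [hcons]
      refine List.Nodup.map_on ?_ (List.nodup_range' ..)
      intro i hi j hj e
      rw [List.mem_range'_1] at hi hj
      have := hlenN v
      exact hinj _ i (by omega) j (by omega) e
    · have key : ∀ v ∈ P, ∀ v' ∈ P, ∀ x, x ∈ v :: gap v → x ∈ v' :: gap v' →
          ¬ idx v < idx v' := by
        intro v _ v' hv' x h1 h2 hlt
        rw [hmem] at h1 h2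
        refine Nat.find_min (hstop v) (m := idx v' - idx v - 1) (by
          show _ < len v
          omega) (Or.inr ?_)
        have : idx v + 1 + (idx v' - idx v - 1) = idx v' := by omega
        rw [this, ← h1.1, h2.1, hidxe]
        exact hv'
      refine List.Pairwise.imp_of_mem ?_ hP
      intro v v' hv hv' hne x h1 h2
      have a := key v hv v' hv' x h1 h2
      have b := key v' hv' v hv x h2 h1
      rw [hmem] at h1 h2
      apply hne
      rw [← hidxe v, ← hidxe v', ← h1.1, h2.1]
      congr 2
      omega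
  · intro x
    let a := Nat.findGreatest (fun i => f i • base x ∈ P) (idx x)
    have haP : f a • base x ∈ P :=
      Nat.findGreatest_spec (P := fun i => f i • base x ∈ P) (Nat.zero_le _)
        (by show f 0 • base x ∈ P; rw [hf0, one_smul]; exact hbsP _)
    have hale : a ≤ idx x := Nat.findGreatest_le _
    have haN : a < N := lt_of_le_of_lt hale (hidxN x)
    refine List.mem_flatMap.2 ⟨f a • base x, haP, ?_⟩
    rw [hmem, hidx_e x a haN, hbe]
    refine ⟨rfl, hale, ?_⟩
    by_contra hc
    have hs : idx (f a • base x) + 1 + len (f a • base x) = N ∨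
        f (idx (f a • base x) + 1 + len (f a • base x)) • base (f a • base x) ∈ P :=
      Nat.find_spec (hstop (f a • base x))
    rw [hidx_e x a haN, hbe] at hs
    have := hidxN x
    rcases hs with hs | hs
    · omega
    · exact Nat.findGreatest_is_greatest (P := fun i => f i • base x ∈ P) (n := idx x)
        (k := a + 1 + len (f a • base x)) (by show a < _; omega) (by omega) hs

end gaps

/-- Core theorem: a finite abelian group of neighbour maps commuting with `Γ`. -/
lemma value_of_centraliser {V : Type} [Fintype V] {X : SimpleGraph V}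
    {Γ : Type} [Group Γ] [Fintype Γ] [MulAction Γ V] [MulAction.IsPretransitive Γ V]
    {A : Type} [CommGroup A] [Finite A] [MulAction A V] {T : Set A}
    (hcomm : ∀ (g : Γ) (a : A) (v : V), g • a • v = a • g • v)
    (hT : ∀ t ∈ T, ∀ v, X.Adj v (t • v)) (hgen : Subgroup.closure T = ⊤)
    (hfree : ∀ (a : A) (v : V), a • v = v → a = 1)
    (P : List V) (hne : P ≠ []) (hPc : P.IsChain X.Adj) (hP : P.Nodup)
    (hmeet : ∀ v : V, ∃ a : A, a • v ∈ P) : ValueIsHalf X Γ := by
  classical
  obtain ⟨gap, hg1, hg2, hg3⟩ := exists_gaps hgen hfree P hP hmeet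
  obtain ⟨L, hLc, -, hLp⟩ := assemble hT gap hg1 P hPc
  have hnd : (L.map col).Nodup := hLp.nodup_iff.2 hg2
  have hall : ∀ x, x ∈ L.map col := fun x => hLp.mem_iff.2 (hg3 x)
  let o : V := P.head hne
  haveI : Nonempty V := ⟨o⟩
  have hlen : L.length = Fintype.card V := by
    rw [← List.length_map (f := col), ← List.toFinset_card_of_nodup hnd]
    congr 1
    ext x
    simp only [List.mem_toFinset, Finset.mem_univ, iff_true]
    exact hall x
  have hn0 : 0 < L.length := hlen ▸ Fintype.card_pos
  let st : ℕ → A × V := fun i => L[min i (L.length - 1)]'(by omega)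
  have hst : ∀ i, st (i + 1) = st i ∨ St X T (st i) (st (i + 1)) := by
    intro i
    by_cases hi : i + 1 < L.length
    · right
      have := List.isChain_iff_getElem.1 hLc i hi
      simp only [st]
      convert this using 2 <;> omega
    · left
      simp only [st]
      congr 1
      omega
  refine ⟨fun r s _ _ h => lower_bound r s h, fun i => (st i).1 • o, fun i => (st i).2,
    ?_, ?_, ?_⟩
  · intro i
    rcases hst i with h | ⟨h | ⟨t, ht, h | h⟩, -⟩
    · left; simp only [h]
    · left; simp only [h]
    · right; simp only [h, mul_smul]; exact hT t ht _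
    · right; simp only [h, mul_smul]; exact (hT t ht _).symm
  · intro i
    rcases hst i with h | ⟨-, h⟩
    · left; simp only [h]
    · exact h
  · refine optimal_of_bij _ _ o (fun i => col (st i)) ?_ ?_
    · intro i _ g
      simp only [col]
      rw [hcomm, eq_inv_smul_iff]
    · intro i hi j hj e
      rw [← hlen] at hi hj
      have h1 : col (st i) = (L.map col)[i]'(by simpa using hi) := by
        simp only [st, List.getElem_map]; congr 2; omega
      have h2 : col (st j) = (L.map col)[j]'(by simpa using hj) := by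
        simp only [st, List.getElem_map]; congr 2; omega
      rw [h1, h2] at e
      exact (List.Nodup.getElem_inj_iff hnd).1 e

end Pool.Agent.P.MP_01accb_co
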